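import Pool.Agent.Run7.h90.AU.Final

set_option autoImplicit false

/-!
# The forms `q r_j + 1` for all distinct `r_j ≤ p ^ A`, `q` running through the values of a linear recurrence modulo `p`

Let `p` be a large prime and `u n = c_1 g_1 ^ n + ... + c_k g_k ^ n` modulo `p`, where `c ≠ 0` and the orders of the `g_i`
and of the quotients `g_i / g_j` are at least `p ^ η`. The theorem is about the pairs `(n, q)`, `n < N`, `N ≥ p ^ η`, of an
index `n` and an integer `q` of an interval of length `L ≥ p ^ (1 - δ)` that is congruent to `u n` modulo `p`, and it is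
uniform in all `ℓ`-tuples of distinct positive integers `r_1, ..., r_ℓ ≤ p ^ A`.

Proof: the exponential sums over the recurrence are smaller than `N` by a power of `p` (theorem of Bourgain, Glibichuk and
Konyagin and its extension to vectors, `Agent/Run7/h823/BK9`), so the integers `q` are equidistributed in the residue
classes modulo all integers up to `p ^ δ`; then the fundamental lemma of the sieve, uniformly in the polynomial, and a
uniform comparison of the sieve product with the singular product (`Agent/Run7/h90/AU`).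
-/

namespace Pool.Agent.Results.MP_d018b2_nt.ArgumentsInRecurrences

open Finset Filter Topology
open scoped Classical

/-- The number `w l` of the residue classes `q` modulo `l` with `∏ (q r_j + 1) ≡ 0`. -/
noncomputable def w {ℓ : ℕ} (r : Fin ℓ → ℕ) (l : ℕ) : ℕ :=
  ((range l).filter fun q : ℕ => l ∣ ∏ j, (q * r j + 1)).card

/-- The partial products, over the primes up to `z`, of the singular product. -/
noncomputable def partialSingular {ℓ : ℕ} (r : Fin ℓ → ℕ) (z : ℕ) : ℝ :=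
  ∏ l ∈ (range (z + 1)).filter Nat.Prime, ((1 - (w r l : ℝ) / l) / (1 - 1 / (l : ℝ)) ^ ℓ)

/-- The recurrence `u n = c_1 g_1 ^ n + ... + c_k g_k ^ n` modulo `p`. -/
def recurrence (p k : ℕ) (c : Fin k → ZMod p) (g : Fin k → (ZMod p)ˣ) (n : ℕ) : ZMod p :=
  ∑ i, c i * (g i : ZMod p) ^ n

/-- The standing assumptions on the recurrence, on `N` and on `L`. -/
def Setting (η δ : ℝ) (p k : ℕ) (c : Fin k → ZMod p) (g : Fin k → (ZMod p)ˣ) (N L : ℕ) : Prop :=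
  c ≠ 0 ∧ (∀ i, (p : ℝ) ^ η ≤ orderOf (g i)) ∧ (∀ i j, i ≠ j → (p : ℝ) ^ η ≤ orderOf (g i / g j)) ∧
    (p : ℝ) ^ η ≤ N ∧ (p : ℝ) ^ (1 - δ) ≤ L

/-- The number of the pairs `(n, q)` with `n < N`, `M < q ≤ M + L`, `q ≡ u n` modulo `p` and the property `P q`. -/
noncomputable def number (p : ℕ) (u : ℕ → ZMod p) (N M L : ℕ) (P : ℕ → Prop) : ℕ :=
  ((range N ×ˢ Ioc M (M + L)).filter fun x => ((x.2 : ℕ) : ZMod p) = u x.1 ∧ P x.2).card

/-- The integer `n ≠ 0` has at most `r` prime factors (with multiplicity), all at least `y`. -/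
def Almost (r : ℕ) (y : ℝ) (n : ℕ) : Prop :=
  n ≠ 0 ∧ n.primeFactorsList.length ≤ r ∧ ∀ l : ℕ, l ∈ n.primeFactorsList → y ≤ l

/-- The expected order `S (N L / p) / y ^ ℓ`. -/
noncomputable def expected (ℓ p N L : ℕ) (S y : ℝ) : ℝ := S * (N * ((L : ℝ) / p)) / y ^ ℓ

theorem number_eq (p : ℕ) (u : ℕ → ZMod p) (N M L : ℕ) (P : ℕ → Prop) (Q : ℕ × ℕ → Prop)
    [DecidablePred Q] (h : ∀ x : ℕ × ℕ, P x.2 ↔ Q x) :
    number p u N M L P = ((Pool.Agent.Run7.h90.AU.prs p (range N) u M L).filter Q).card := by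
  unfold number Pool.Agent.Run7.h90.AU.prs
  congr 1
  ext x
  simp only [mem_filter, h, and_assoc]

theorem prod_eq {ℓ : ℕ} (r : Fin ℓ → ℕ) (q : ℕ) :
    ∏ j, ((1 : ℤ) + (r j : ℤ) * (q : ℤ)) = ((∏ j, (q * r j + 1) : ℕ) : ℤ) := by
  push_cast
  refine prod_congr rfl fun j _ => ?_
  ring

theorem natAbs_eq (r q : ℕ) : ((1 : ℤ) + (r : ℤ) * (q : ℤ)).natAbs = q * r + 1 := by
  have : (1 : ℤ) + (r : ℤ) * (q : ℤ) = ((q * r + 1 : ℕ) : ℤ) := by
    push_cast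
    ring
  rw [this, Int.natAbs_natCast]

theorem psing_eq {ℓ : ℕ} (r : Fin ℓ → ℕ) :
    partialSingular r = Pool.Agent.Run7.h90.AU.psing (fun _ => (1 : ℤ)) (fun j => (r j : ℤ)) := by
  funext z
  unfold partialSingular Pool.Agent.Run7.h90.AU.psing
  refine prod_congr rfl fun l _ => ?_
  have h : w r l = Pool.Agent.Run7.h90.AU.om (fun _ => (1 : ℤ)) (fun j => (r j : ℤ)) l := by
    unfold w Pool.Agent.Run7.h90.AU.om
    congr 1
    ext n
    simp only [mem_filter, prod_eq, Int.natCast_dvd_natCast]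
  rw [h]

theorem ts {ℓ : ℕ} {r : Fin ℓ → ℕ} {Q : ℝ} (hr0 : ∀ j, r j ≠ 0) (hr : Function.Injective r)
    (hQ1 : 1 ≤ Q) (hQ : ∀ j, (r j : ℝ) ≤ Q) :
    Pool.Agent.Run7.h90.AU.TS Q (fun _ : Fin ℓ => (1 : ℤ)) (fun j => (r j : ℤ)) := by
  refine ⟨fun j => Int.natCast_ne_zero.2 (hr0 j), ?_, ?_, ?_, ?_⟩
  · intro i j hij h
    apply hij
    apply hr
    have : (r j : ℤ) = r i := by linarith
    exact_mod_cast this.symm
  · intro l hl
    refine ⟨0, ?_⟩
    intro h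
    have h1 : ∏ j : Fin ℓ, ((1 : ℤ) + (r j : ℤ) * 0) = 1 := prod_eq_one fun j _ => by ring
    rw [h1] at h
    have h2 : l ∣ 1 := by exact_mod_cast h
    exact hl.one_lt.ne' (Nat.dvd_one.1 h2)
  · intro j
    simpa using hQ1
  · intro j
    rw [Int.cast_natCast, Nat.abs_cast]
    exact hQ j

theorem result (ℓ k : ℕ) (η A : ℝ) (hη : 0 < η) (hA : 1 ≤ A) :
    (∃ δ : ℝ, 0 < δ ∧ ∀ b : ℕ, 1 ≤ b → ∃ P₀ : ℝ, ∀ p : ℕ, p.Prime → P₀ ≤ p →
      ∀ (c : Fin k → ZMod p) (g : Fin k → (ZMod p)ˣ) (N L : ℕ), Setting η δ p k c g N L →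
      ∀ r : Fin ℓ → ℕ, (∀ j, r j ≠ 0) → Function.Injective r → (∀ j, (r j : ℝ) ≤ (p : ℝ) ^ A) →
      ∃ S : ℝ, 0 < S ∧ Tendsto (partialSingular r) atTop (𝓝 S) ∧
      ∀ M z : ℕ, Real.log p ≤ z → (z : ℝ) ≤ (p : ℝ) ^ (δ / b) →
      |(number p (recurrence p k c g) N M L
          (fun q => ∀ l : ℕ, l.Prime → l ≤ z → ¬ l ∣ ∏ j, (q * r j + 1)) : ℝ) -
          Real.exp (-(ℓ * Real.eulerMascheroniConstant)) * expected ℓ p N L S (Real.log z)| ≤
        (1 / 2) ^ b *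
          (Real.exp (-(ℓ * Real.eulerMascheroniConstant)) * expected ℓ p N L S (Real.log z))) ∧
    (∃ (t : ℕ) (δ K : ℝ), 0 < δ ∧ 0 < K ∧ ∃ P₀ : ℝ, ∀ p : ℕ, p.Prime → P₀ ≤ p →
      ∀ (c : Fin k → ZMod p) (g : Fin k → (ZMod p)ˣ) (N L : ℕ), Setting η δ p k c g N L →
      ∀ r : Fin ℓ → ℕ, (∀ j, r j ≠ 0) → Function.Injective r → (∀ j, (r j : ℝ) ≤ (p : ℝ) ^ A) →
      ∃ S : ℝ, 0 < S ∧ Tendsto (partialSingular r) atTop (𝓝 S) ∧
      ∀ M : ℕ, (M + L : ℝ) ≤ (p : ℝ) ^ A →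
      expected ℓ p N L S (Real.log p) ≤ K * (number p (recurrence p k c g) N M L
          (fun q => ∀ j, Almost t ((p : ℝ) ^ δ) (q * r j + 1)) : ℝ) ∧
      (number p (recurrence p k c g) N M L (fun q => ∀ j, (q * r j + 1).Prime) : ℝ) ≤
        K * expected ℓ p N L S (Real.log p)) := by
  constructor
  · obtain ⟨δ, hδ, H⟩ := Pool.Agent.Run7.h90.AU.rec_count ℓ k η A hη hA
    refine ⟨δ, hδ, fun b hb => ?_⟩
    obtain ⟨P₀, H⟩ := H b hb
    refine ⟨P₀, ?_⟩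
    intro p hpp hpP c g N L hS r hr0 hr hrA
    have hp1 : (1 : ℝ) ≤ p := by exact_mod_cast hpp.one_le
    have hT := ts hr0 hr (Real.one_le_rpow hp1 (by linarith : (0 : ℝ) ≤ A)) hrA
    obtain ⟨S, hS0, hSl⟩ := Pool.Agent.Run7.h90.AU.psing_lim hT
    refine ⟨S, hS0, by rw [psing_eq]; exact hSl, ?_⟩
    intro M z hz1 hz2
    have h := H p hpp hpP c g N L hS _ _ hT S hS0 hSl M z hz1 hz2
    rw [number_eq p _ N M L _ (fun x => ∀ l : ℕ, l.Prime → l ≤ z →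
      ¬ (l : ℤ) ∣ ∏ j, ((1 : ℤ) + (r j : ℤ) * (x.2 : ℤ)))]
    · exact h
    · intro x
      simp only [prod_eq, Int.natCast_dvd_natCast]
  · obtain ⟨t, δ, K, hδ, hK, P₀, H⟩ := Pool.Agent.Run7.h90.AU.rec_orders ℓ k η A hη hA
    refine ⟨t, δ, K, hδ, hK, P₀, ?_⟩
    intro p hpp hpP c g N L hS r hr0 hr hrA
    have hp1 : (1 : ℝ) ≤ p := by exact_mod_cast hpp.one_le
    have hT := ts hr0 hr (Real.one_le_rpow hp1 (by linarith : (0 : ℝ) ≤ A)) hrA
    obtain ⟨S, hS0, hSl⟩ := Pool.Agent.Run7.h90.AU.psing_lim hT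
    refine ⟨S, hS0, by rw [psing_eq]; exact hSl, ?_⟩
    intro M hM
    obtain ⟨h1, h2⟩ := H p hpp hpP c g N L hS _ _ hT S hS0 hSl M hM
    rw [number_eq p _ N M L _ (fun x => ∀ j, Pool.Agent.Run7.h90.AU.Alm t ((p : ℝ) ^ δ)
      ((1 : ℤ) + (r j : ℤ) * (x.2 : ℤ)).natAbs),
      number_eq p _ N M L (fun q => ∀ j, (q * r j + 1).Prime)
      (fun x => ∀ j, ((1 : ℤ) + (r j : ℤ) * (x.2 : ℤ)).natAbs.Prime)]
    · exact ⟨h1, h2⟩
    · intro x
      simp only [natAbs_eq]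
    · intro x
      simp only [natAbs_eq]
      exact Iff.rfl

end Pool.Agent.Results.MP_d018b2_nt.ArgumentsInRecurrences
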