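import Pool.Agent.Run7.h965.MX.Mult

/-!
# Systems of variable words: exactly the numbers `q r_0 + 1, …, q r_k + 1` are prime

A word is a finite list of pairs (position, letter), with increasing positions; positions and letters
are natural numbers. In a variable word some letters are replaced by a variable (`none`).

1. Let `φ_j` be arbitrary functions of words with positive integers as values, growing strictly when a
   word is continued: `φ_j (s) < φ_j (s t)` if the positions of `t` follow those of `s`. Let `e_j` be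
   integers prime to all values of `φ_j` (for instance `e_j = 1`). There are variable words
   `w_0 < w_1 < …` such that for every `j`, every `k`, all nonempty finite sets `F_0 < F_1 < … < F_k` of
   indices `≥ j` and ALL letters `a_i`, bounded by any function of `w_0, …, w_(i-1)` given in advance:
   if `s_m` is the word formed by the `w_i (a_i)` with `i ∈ F_0 ∪ … ∪ F_m` and `r_m = φ_j (s_m)`, then
   for every `R` there are infinitely many `q` such that among ALL the numbers `q s + b` with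
   `1 ≤ s ≤ R`, `|b| ≤ R`, the primes are exactly the `q r_m + e_j`, `m ≤ k`. The same holds for
   `c r_0, …, c r_k`, for every `c` prime to `e_j` and bounded by any function of the words before `F_0`
   given in advance.

2. Example: let `d_j (p, a) ≥ 2` be arrays of integers. There are finite sets `V_i`, `W_i` of
   positions, `W_i ≠ ∅`, with `V_0 ∪ W_0 < V_1 ∪ W_1 < …` and letters `b_p` such that both the sums
   `r_m = ∑_{i ∈ F_0 ∪ … ∪ F_m} (∑_{p ∈ V_i} d_j (p, b_p) + ∑_{p ∈ W_i} d_j (p, a_i))` and the products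
   `r_m = ∏_{i ∈ F_0 ∪ … ∪ F_m} ∏_{p ∈ V_i} d_j (p, b_p) ∏_{p ∈ W_i} d_j (p, a_i)` have this property
   with `e = 1`, for all `F_0 < … < F_k` in `[j, ∞)` and all choices of the letters `a_i` (bounded by
   any given function of the earlier positions).
-/

set_option autoImplicit false

namespace Pool.Agent.Results.MP_d018b2_nt.FunctionsOfWords

open Finset

/-- The word formed by the words `w i (a i)`, `i ∈ I`: in the variable word `w i` the letter `a i` is put
in place of the variable `none`. -/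
def word (w : ℕ → List (ℕ × Option ℕ)) (a : ℕ → ℕ) (I : Finset ℕ) : List (ℕ × ℕ) :=
  (I.sort (· ≤ ·)).flatMap fun i => (w i).map fun p => (p.1, p.2.getD (a i))

/-- The positions of a word increase. -/
def Increasing (s : List (ℕ × ℕ)) : Prop := s.Pairwise fun x y => x.1 < y.1

/-- A sequence of variable words: the variable occurs in each of them, and the positions increase within
each word and from each word to the next one. -/
structure VariableWords (w : ℕ → List (ℕ × Option ℕ)) : Prop where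
  var : ∀ i, ∃ p ∈ w i, p.2 = none
  incr : ∀ i, (w i).Pairwise fun x y => x.1 < y.1
  lt : ∀ i, ∀ x ∈ w i, ∀ y ∈ w (i + 1), x.1 < y.1

/-- For every `R` there are infinitely many `q` such that among the numbers `q s + b`, `1 ≤ s ≤ R`,
`|b| ≤ R`, exactly the numbers `q (r m) + e`, `m ≤ k`, are prime. -/
def ExactMultipliers (e : ℤ) (k : ℕ) (r : ℕ → ℕ) : Prop :=
  ∀ R : ℕ, {q : ℕ | ∀ s b : ℤ, 1 ≤ s → s ≤ R → |b| ≤ R →
    (Nat.Prime ((q : ℤ) * s + b).toNat ↔ b = e ∧ ∃ m ≤ k, s = r m)}.Infinite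

theorem result :
    -- (1) functions of words
    (∀ (φ : ℕ → List (ℕ × ℕ) → ℕ) (e : ℕ → ℤ),
      (∀ j s t, s ≠ [] → t ≠ [] → Increasing (s ++ t) → φ j s < φ j (s ++ t)) →
      (∀ j s, s ≠ [] → Increasing s → 1 ≤ φ j s) →
      (∀ j s, s ≠ [] → Increasing s → IsCoprime (φ j s : ℤ) (e j)) →
      ∀ H C : List (List (ℕ × Option ℕ)) → ℕ,
      ∃ w, VariableWords w ∧
        ∀ (j k c i₀ : ℕ) (F : ℕ → Finset ℕ) (a : ℕ → ℕ), j ≤ i₀ → 1 ≤ c → IsCoprime (c : ℤ) (e j) →
          (c = 1 ∨ c ≤ C ((List.range i₀).map w)) →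
          (∀ l ≤ k, (F l).Nonempty) → (∀ l ≤ k, ∀ i ∈ F l, i₀ ≤ i) →
          (∀ l < k, ∀ i ∈ F l, ∀ i' ∈ F (l + 1), i < i') →
          (∀ i, a i ≤ H ((List.range i).map w)) →
          ExactMultipliers (e j) k fun m => c * φ j (word w a ((range (m + 1)).biUnion F))) ∧
    -- (2) sums and products of arrays
    (∀ d : ℕ → ℕ → ℕ → ℕ, (∀ j p a, 2 ≤ d j p a) → ∀ h : ℕ → ℕ,
      ∃ (V W : ℕ → Finset ℕ) (b : ℕ → ℕ), (∀ i, (W i).Nonempty) ∧ (∀ i, Disjoint (V i) (W i)) ∧
        (∀ i, ∀ x ∈ V i ∪ W i, ∀ y ∈ V (i + 1) ∪ W (i + 1), x < y) ∧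
        ∀ (j k : ℕ) (F : ℕ → Finset ℕ) (a : ℕ → ℕ), (∀ l ≤ k, (F l).Nonempty) →
          (∀ l ≤ k, ∀ i ∈ F l, j ≤ i) → (∀ l < k, ∀ i ∈ F l, ∀ i' ∈ F (l + 1), i < i') →
          (∀ i, a i ≤ i ∨ ∃ i' < i, ∃ p ∈ V i' ∪ W i', a i ≤ h p) →
          ExactMultipliers 1 k (fun m => ∑ i ∈ (range (m + 1)).biUnion F,
            (∑ p ∈ V i, d j p (b p) + ∑ p ∈ W i, d j p (a i))) ∧
          ExactMultipliers 1 k (fun m => ∏ i ∈ (range (m + 1)).biUnion F,
            ((∏ p ∈ V i, d j p (b p)) * ∏ p ∈ W i, d j p (a i)))) := by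
  refine ⟨fun φ e hφ hpos hcop H C => ?_, fun d hd h => ?_⟩
  · obtain ⟨w, hw1, hw2, hw3, hw4⟩ :=
      Pool.Agent.Run7.h965.MX.mult_main φ e hφ hpos hcop H C 0
    exact ⟨w, ⟨hw1, fun i => (hw2 i).2.1, hw3⟩, hw4⟩
  · exact Pool.Agent.Run7.h965.MX.mult_arrays d hd h

end Pool.Agent.Results.MP_d018b2_nt.FunctionsOfWords
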