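import Pool.Agent.Run7.h783.GL.MultL

set_option autoImplicit false

/-!
# One sequence of multipliers: all patterns of primes among `q m + 1`, along narrow progressions

Let `c` be an integer, for example `c = 1`. For every infinite group `G` of positive rational
numbers with numerators (and hence denominators) prime to `c` there is a subgroup `H` of index at
most three whose elements can be arranged in ONE sequence `r_0, r_1, …`, each exactly once, such
that for every `k` and all late windows `r_i, …, r_(i+k)` the following holds, `m_0 : … : m_k` being
the coprime positive integers proportional to `r_i : … : r_(i+k)`. For every length `l` there is a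
`C` such that for arbitrarily large `X` and EVERY set `B` of indices `j ≤ k` there is a difference
`1 ≤ D ≤ (log X)^C` such that for at least `X / (log X)^C` integers `q ≤ X`, at each of the `l`
points `q, q + D, …, q + (l - 1) D`, the numbers `q m_j + c` with `j` in `B` are prime and the others
are not.

Proof (`Pool/Agent/Run7/h783/GL`): the group acts by dilations with the centre `c`. The coloured
Maynard-Tao theorem above one quarter for linear forms with all patterns along narrow progressions
(relative Szemeredi theorem inside; `Pool.Agent.Y827.HN`, `Pool.Agent.Y827.RO` of the starting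
tree), applied inside a Ramsey type extraction, shows that of any four elements of the group two
are connected by an element of the subgroup of the directions which are good for all finite sets;
this subgroup has index at most three, and a walk through it gives the sequence.
-/

namespace Pool.Agent.Results.MP_d018b2_nt.MultipliersAllPatterns

open Filter

/-- Let `c` be an integer (`c = 1` in the problem). For every infinite subgroup `G` of the group of
the positive rational numbers whose elements have numerators prime to `c` there is a subgroup
`H ≤ G` of index at most `3` and a sequence `r` without repetitions whose values are exactly the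
elements of `H`, such that for every `k` and all sufficiently large `i` the following holds. Let
`m_0, …, m_k` be the coprime positive integers proportional to `r_i, …, r_(i+k)`. For every `l` there
is a `C` such that for arbitrarily large `X` and every `B ⊆ {0, …, k}`, for some
`1 ≤ D ≤ (log X)^C`, at least `X / (log X)^C` natural numbers `q ≤ X` are such that for each
`q' = q, q + D, …, q + (l - 1) D` and each `j ≤ k`, `m_j q' + c` is prime if and only if `j ∈ B`. -/
theorem result (c : ℤ) (G : Subgroup ℚˣ) (hpos : ∀ g ∈ G, 0 < (g : ℚ))
    (hcop : ∀ g ∈ G, IsCoprime (g : ℚ).num c) (hinf : (G : Set ℚˣ).Infinite) :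
    ∃ H : Subgroup ℚˣ, H ≤ G ∧ H.relIndex G ≠ 0 ∧ H.relIndex G ≤ 3 ∧
      ∃ r : ℕ → ℚˣ, Function.Injective r ∧ Set.range r = H ∧
        ∀ k : ℕ, ∃ i₀ : ℕ, ∀ i ≥ i₀, ∀ m : ℕ → ℕ, (∀ j ≤ k, 1 ≤ m j) →
          (∀ j ≤ k, (m j : ℚ) * r i = m 0 * r (i + j)) → (Finset.range (k + 1)).gcd m = 1 →
          ∀ l : ℕ, ∃ C : ℕ, ∃ᶠ X : ℕ in atTop, ∀ B ⊆ Finset.range (k + 1), ∃ D : ℕ, 1 ≤ D ∧
            (D : ℝ) ≤ (Real.log X) ^ C ∧ (X : ℝ) / (Real.log X) ^ C ≤
            ({q : ℕ | q ≤ X ∧ ∀ t < l, ∀ j ≤ k, ((∃ p : ℕ, p.Prime ∧
              (p : ℤ) = m j * ((q + t * D : ℕ) : ℤ) + c) ↔ j ∈ B)}.ncard : ℝ) :=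
  Pool.Agent.Run7.h783.GL.final_multL c G hpos hcop hinf

end Pool.Agent.Results.MP_d018b2_nt.MultipliersAllPatterns
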