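import Pool.Agent.Run7.h962.AP.A8

/-!
# The forms `q r_j + 1`: the sharp limit of all nonnegative sieve weights, uniformly in the `r_j`

The problem asks for the number of the `q`, `x ≤ q < 2x`, for which `q r_1 + 1, ..., q r_ℓ + 1` are all prime, uniformly in the
positive integers `r_j ≤ b log x`.  The known method which shows that several of these numbers are simultaneously prime for
many `q` (Goldston-Pintz-Yıldırım, Maynard, Tao) takes a nonnegative weight `w(q)` of level `Q` for which the expected number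
of primes among the values, with respect to `w`, is large.  If the primes have the level of distribution `θ`, the weights of
Maynard and Tao give `(θ/2 + o(1)) log ℓ` primes.  We prove that no nonnegative weight whatever gives more, uniformly even in
all `r_j` up to an arbitrary power of `Q`: for ANY weight `w ≥ 0` of level `Q`, that is, a sum of arbitrary functions with
periods `d ≤ Q`, and ANY set `R` of `ℓ` positive integers `≤ Q^B`, let `X(q)` be the number of the `q r + 1`, `r ∈ R`,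
without prime factors `≤ Q`, `M` the mean over the period `Q!` and `L = (e^(-γ)/2 + ε) log ℓ + C(ε)`.

(1) `M(w binom(X, s)) ≤ L^s / s! · M(w)` for all `s`.

(2) `∏_{p ≤ Q} (1 - 1/p)^(-s) M(w binom(X, s)) ≤ (((1/2 + ε) log ℓ + C) log Q)^s / s! · M(w)` for all `s`; the left side is
the sum over the `S ⊆ R` with `s` elements of the expected main terms (Hardy and Littlewood, primes `≤ Q`) of the mean values
of `w(q) ∏_{r ∈ S} Λ(q r + 1)`.

(3) `M(w 1[X ≥ m]) ≤ e^(m - L) (L/m)^m M(w)` for all integers `m ≥ L`; for `m = ℓ` (all the `q r + 1`, `r ∈ R`, as in the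
problem) the factor is at most `(O_ε(log ℓ) / ℓ)^ℓ`.

(4) for the primes themselves, unconditionally: for `0 < δ < 1/2` and `r ≤ (log N)^B`, every weight `w ≥ 0` of
level `N^δ` for which `∑_d (∑_a |c_d(a)|)^2 / φ(d)` is at most a fixed power of `log N` times the square of the mean of `w` (as
for the weights of Maynard and Tao) satisfies
`∑_{q < N} w(q) #{r ∈ R : q r + 1 prime} ≤ ((δ/2 + ε) log ℓ + C(ε)) ∑_{q < N} w(q)` (theorem of Bombieri and Vinogradov,
`Pool/Agent/Run7/h962/AP`).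

The bounds (1), (2) are sharp for `ℓ → ∞` (weights of Maynard and Tao), and the constant `C(ε)` does not depend on `ℓ`, `R`, `B`.

The proof: a prime which divides no `r` and no difference `r - r'` divides at most one of the values; all but few of the
primes `≤ Q` are of this kind, and the forms are reduced to the model of the proof for shifts (MP_8923e7_nt,
`SharpLimitOfNonnegativeWeights`: inequality `PSs`, by helpers 962, 816, 249, 420, 571, 956, 697, 743, 97, 245, 372 and 91,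
with starting files of helper422).
-/

set_option autoImplicit false

open Finset

namespace Pool.Agent.Results.MP_d018b2_nt.SharpLimitOfNonnegativeWeights

/-- the weight `w(q) = ∑_{d ≤ Q} c_d(q mod d)`, an arbitrary real weight of level `Q` -/
noncomputable def weight (Q : ℕ) (c : ℕ → ℕ → ℝ) (q : ℕ) : ℝ := ∑ d ∈ Icc 1 Q, c d (q % d)

/-- the mean value of `F` over the period `Q!` -/
noncomputable def mean (Q : ℕ) (F : ℕ → ℝ) : ℝ := (∑ q ∈ range Q.factorial, F q) / (Q.factorial : ℝ)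

/-- the number of the `r ∈ R` for which `q r + 1` has no prime factor `p ≤ Q` -/
def free (Q : ℕ) (R : Finset ℕ) (q : ℕ) : ℕ :=
  (R.filter (fun r : ℕ => ∀ p ∈ Icc (1 : ℕ) Q, Nat.Prime p → ¬ p ∣ q * r + 1)).card

/-- the product `∏_{p ≤ Q} (1 - 1/p)^(-1)`, asymptotically equal to `e^γ log Q` -/
noncomputable def euler (Q : ℕ) : ℝ := (∏ p ∈ (Icc 1 Q).filter Nat.Prime, (1 - 1 / (p : ℝ)))⁻¹

/-- For every `ε > 0` there is `C > 0` such that the following holds for all `ℓ ≥ 1`, all real `B` and all `Q ≥ Q₀(ε, ℓ, B)`.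
Let `R` be a set of `ℓ` positive integers `r ≤ Q^B`, let `w ≥ 0` be a weight of level `Q`, let `X(q)` be the number of the
`q r + 1`, `r ∈ R`, without prime factors `≤ Q`, let `M` be the mean over the period `Q!` and
`L = (e^(-γ)/2 + ε) log ℓ + C`.

(1) For all `s`, `M(w binom(X, s)) ≤ L^s / s! · M(w)`.

(2) For all `s`, `∏_{p ≤ Q} (1 - 1/p)^(-s) M(w binom(X, s)) ≤ (((1/2 + ε) log ℓ + C) log Q)^s / s! · M(w)`.

(3) For all integers `m ≥ L`, `M(w 1[X ≥ m]) ≤ e^(m - L) (L/m)^m M(w)`.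

(4) Let `0 < δ < 1/2`, `A, B ≥ 0` and `N ≥ N₀(ε, ℓ, δ, A, B)`, let `R` be a set of `ℓ` positive integers `r ≤ (log N)^B`, and let `w ≥ 0` be a
weight of level `⌊N^δ⌋` with `∑_d (∑_a |c_d(a)|)^2 / φ(d) ≤ (log N)^A ((1/N) ∑_{q < N} w(q))^2`.  Then
`∑_{q < N} w(q) #{r ∈ R : q r + 1 prime} ≤ ((δ/2 + ε) log ℓ + C) ∑_{q < N} w(q)`. -/
theorem result : ∀ ε : ℝ, 0 < ε → ∃ C : ℝ, 0 < C ∧
    (∀ (l : ℕ) (B : ℝ), 1 ≤ l → ∃ Q₀ : ℕ, ∀ Q : ℕ, Q₀ ≤ Q →
    ∀ R : Finset ℕ, R.card = l → (∀ r ∈ R, 1 ≤ r ∧ (r : ℝ) ≤ (Q : ℝ) ^ B) →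
    ∀ c : ℕ → ℕ → ℝ, (∀ q, 0 ≤ weight Q c q) →
    ∀ L : ℝ, L = (Real.exp (-Real.eulerMascheroniConstant) / 2 + ε) * Real.log l + C →
      (∀ s : ℕ, mean Q (fun q => weight Q c q * ((free Q R q).choose s : ℝ)) ≤
        L ^ s / (s.factorial : ℝ) * mean Q (weight Q c)) ∧
      (∀ s : ℕ, euler Q ^ s * mean Q (fun q => weight Q c q * ((free Q R q).choose s : ℝ)) ≤
        (((1 / 2 + ε) * Real.log l + C) * Real.log Q) ^ s / (s.factorial : ℝ) * mean Q (weight Q c)) ∧
      (∀ m : ℕ, L ≤ m → mean Q (fun q => if m ≤ free Q R q then weight Q c q else 0) ≤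
        Real.exp (m - L) * (L / m) ^ m * mean Q (weight Q c))) ∧
    (∀ (l : ℕ) (δ : ℝ) (A B : ℕ), 1 ≤ l → 0 < δ → δ < 1 / 2 → ∃ N₀ : ℕ, ∀ N : ℕ, N₀ ≤ N →
      ∀ R : Finset ℕ, R.card = l → (∀ r ∈ R, 1 ≤ r ∧ (r : ℝ) ≤ Real.log N ^ B) →
      ∀ c : ℕ → ℕ → ℝ, (∀ q, 0 ≤ weight ⌊(N : ℝ) ^ δ⌋₊ c q) →
        ∑ d ∈ Icc 1 ⌊(N : ℝ) ^ δ⌋₊, (∑ a ∈ range d, |c d a|) ^ 2 / (Nat.totient d : ℝ) ≤
          Real.log N ^ A * ((∑ q ∈ range N, weight ⌊(N : ℝ) ^ δ⌋₊ c q) / N) ^ 2 →
        ∑ q ∈ range N, weight ⌊(N : ℝ) ^ δ⌋₊ c q * ((R.filter (fun r => (q * r + 1).Prime)).card : ℝ) ≤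
          ((δ / 2 + ε) * Real.log l + C) * ∑ q ∈ range N, weight ⌊(N : ℝ) ^ δ⌋₊ c q) := by
  intro ε hε
  obtain ⟨C, hC, h1, hP⟩ := Pool.Agent.Run7.h962.AP.poi_both ε hε
  refine ⟨C, hC, fun k B hk => ?_, fun k δ A B hk hδ0 hδ => ?_⟩
  swap
  · obtain ⟨N₀, hs, hP⟩ := hP k δ A B hk hδ0 hδ
    refine ⟨N₀, fun N hN R hR hRB c hc hcn => ?_⟩
    have h2 := hP N hN R (fun r => r) (fun _ => 1) hR (fun r hr => (hRB r hr).1) (fun r hr => (hRB r hr).2)
      (fun r _ => by
        push_cast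
        exact (hs N hN).2)
      (fun r _ => Nat.coprime_one_right _)
      (fun s _ t _ hst h => by
        apply hst
        have h5 : s * 1 = t * 1 := h
        omega) c hc hcn
    have e : ∀ q, R.filter (fun r => (q * r + 1).Prime) = R.filter (fun r => (r * q + 1).Prime) := by
      intro q
      apply Finset.filter_congr
      intro r _
      rw [mul_comm]
    simp only [e]
    exact h2
  obtain ⟨Q₀, h1⟩ := h1 k B hk
  refine ⟨Q₀, fun Q hQ R hR hRB c hc L hL => ?_⟩
  have h2 := h1 Q hQ R (fun r => (r : ℤ)) (fun _ => 1) hR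
    (fun r hr => by
      have := (hRB r hr).1
      exact_mod_cast (by omega : r ≠ 0))
    (fun s _ t _ hst h => by
      apply hst
      have h3 : (s : ℤ) = t := by linarith
      exact_mod_cast h3)
    (fun r hr => by
      push_cast
      rw [abs_of_nonneg (by positivity)]
      exact (hRB r hr).2)
    (fun r hr => by
      push_cast
      have h3 : (1 : ℝ) ≤ r := by exact_mod_cast (hRB r hr).1
      rw [abs_one]
      linarith [(hRB r hr).2]) c hc L hL
  have e1 : ∀ n, free Q R n = Pool.Agent.Run7.h962.AP.frF Q R (fun r => (r : ℤ)) (fun _ => 1) n := by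
    intro n
    unfold free Pool.Agent.Run7.h962.AP.frF
    congr 1
    apply Finset.filter_congr
    intro r _
    have e0 : (r : ℤ) * n + 1 = ((n * r + 1 : ℕ) : ℤ) := by push_cast; ring
    rw [e0]
    simp only [Int.natCast_dvd_natCast]
  simp only [e1]
  exact h2

end Pool.Agent.Results.MP_d018b2_nt.SharpLimitOfNonnegativeWeights
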